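import Pool.Agent.Q13.UF.Uni
import Pool.Agent.Q13.UN.Multi

/-!
Orbits of commuting polynomial maps in nonsingular plane curves, over arbitrary fields.
-/

set_option autoImplicit false

namespace Pool.Agent.Q13.UF

open MvPolynomial Pool.Agent.Q13.UN

variable {M s : ℕ}

theorem multi_line {L : Type} [Field L] {T : Fin s → Fin M → MvPolynomial (Fin M) L}
    {ψ : Fin (2 + 1) → MvPolynomial (Fin M) L} {u : (Fin s → ℕ) → Fin M → L}
    (hu : ∀ n a, u (n + Pi.single a 1) = fun i => aeval (u n) (T a i))
    (hne : ∀ n, (fun j => aeval (u n) (ψ j)) ≠ 0) {m0 p : ℕ}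
    (h : ∀ (a : Fin s) (n : Fin s → ℕ) (b c : ℕ), m0 ≤ b → m0 ≤ c → b ≡ c [MOD p] → ∀ i j,
      along (T a) ψ (u (Function.update n a 0)) b i * along (T a) ψ (u (Function.update n a 0)) c j =
      along (T a) ψ (u (Function.update n a 0)) b j *
        along (T a) ψ (u (Function.update n a 0)) c i)
    (n n' : Fin s → ℕ) (hn : ∀ a, n a = n' a ∨ m0 ≤ n a ∧ m0 ≤ n' a ∧ n a ≡ n' a [MOD p]) :
    ∀ i j, aeval (u n) (ψ i) * aeval (u n') (ψ j) = aeval (u n) (ψ j) * aeval (u n') (ψ i) := by
  classical
  have h1 : ∀ (n : Fin s → ℕ) (a : Fin s) (b : ℕ), (n a = b ∨ m0 ≤ n a ∧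
      m0 ≤ b ∧ n a ≡ b [MOD p]) → ∀ i j,
      aeval (u n) (ψ i) * aeval (u (Function.update n a b)) (ψ j) =
        aeval (u n) (ψ j) * aeval (u (Function.update n a b)) (ψ i) := by
    intro n a b hab i j
    rcases hab with hab | ⟨h2, h3, h4⟩
    · have h5 : Function.update n a b = n := by
        rw [← hab]
        exact Function.update_eq_self a n
      rw [h5, mul_comm]
    · have h5 : n = Function.update n a (n a) := (Function.update_eq_self a n).symm
      have h6 : ∀ c, u (Function.update n a c) = orb (T a) (u (Function.update n a 0)) c :=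
        fun c => line_orb hu n a c
      have h7 := h a n (n a) b h2 h3 h4 i j
      conv_lhs => rw [h5]
      conv_rhs => rw [h5]
      rw [Function.update_idem, h6 (n a), h6 b]
      exact h7
  have h2 : ∀ A : Finset (Fin s), ∀ i j, aeval (u n) (ψ i) *
      aeval (u fun a => if a ∈ A then n' a else n a) (ψ j) =
      aeval (u n) (ψ j) * aeval (u fun a => if a ∈ A then n' a else n a) (ψ i) := by
    intro A
    induction A using Finset.induction_on with
    | empty =>
      intro i j
      simp only [Finset.notMem_empty, if_false]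
      exact mul_comm _ _
    | insert a A ha ih =>
      have h3 : (fun b => if b ∈ insert a A then n' b else n b) =
          Function.update (fun b => if b ∈ A then n' b else n b) a (n' a) := by
        funext b
        by_cases hb : b = a
        · subst hb
          simp
        · simp [hb]
      rw [h3]
      refine cross_trans (hne fun b => if b ∈ A then n' b else n b) ih
        (h1 (fun b => if b ∈ A then n' b else n b) a (n' a) ?_)
      rw [if_neg ha]
      exact hn a
  have h3 := h2 Finset.univ
  simp only [Finset.mem_univ, if_true] at h3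
  exact h3

end Pool.Agent.Q13.UF
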