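import Pool.Agent.Q13.UF.Fam

/-!
A uniform exponent in the certificate of nonsingularity.
-/

set_option autoImplicit false

namespace Pool.Agent.Q13.UF

open MvPolynomial

/-- the exponents of degree `m` -/
noncomputable def SD (m : ℕ) : Finset (Fin 3 →₀ ℕ) :=
  (Finsupp.finite_of_degree_eq (σ := Fin 3) m).toFinset

theorem mem_SD {m : ℕ} {x : Fin 3 →₀ ℕ} : x ∈ SD m ↔ x.degree = m := by
  unfold SD
  rw [Set.Finite.mem_toFinset]
  rfl

section

variable {R : Type} [CommRing R]

theorem coeff_hom {H : MvPolynomial (Fin 3) R} {e : ℕ} (hH : H.IsHomogeneous e)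
    {x y : Fin 3 →₀ ℕ} (h : x.degree + e ≠ y.degree) : coeff y (monomial x 1 * H) = 0 := by
  have h1 : (monomial x (1 : R) * H).IsHomogeneous (x.degree + e) :=
    (isHomogeneous_monomial _ rfl).mul hH
  exact h1.coeff_eq_zero h.symm

theorem coeff_mul_hom {G H : MvPolynomial (Fin 3) R} {e m : ℕ} (hH : H.IsHomogeneous e)
    {y : Fin 3 →₀ ℕ} (hy : y.degree = m + e) :
    coeff y (G * H) = ∑ x ∈ SD m, coeff x G * coeff y (monomial x 1 * H) := by
  classical
  have h1 : G * H = ∑ x ∈ G.support, C (coeff x G) * (monomial x 1 * H) := by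
    conv_lhs => rw [G.as_sum]
    rw [Finset.sum_mul]
    refine Finset.sum_congr rfl fun x _ => ?_
    rw [← mul_assoc, C_mul_monomial, mul_one]
  rw [h1, coeff_sum]
  refine Finset.sum_congr_of_eq_on_inter (fun x _ hx => ?_) (fun x _ hx => ?_) fun x _ _ => ?_
  · rw [coeff_C_mul, coeff_hom hH, mul_zero]
    intro h2
    exact hx (mem_SD.2 (by omega))
  · rw [notMem_support_iff.1 hx, zero_mul]
  · rw [coeff_C_mul]

end

/-- **The determinant trick.** -/
theorem det_trick {R L : Type} [CommRing R] [Field L] (f : R →+* L) {e : ℕ}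
    {G : Fin 3 → MvPolynomial (Fin 3) R} (hG : ∀ k, (G k).IsHomogeneous e) {N : ℕ}
    (h : ∀ i, ∃ B : Fin 3 → MvPolynomial (Fin 3) L, X i ^ N = ∑ k, B k * map f (G k)) :
    ∃ (n : ℕ) (g : R), f g ≠ 0 ∧ ∀ i, ∃ B : Fin 3 → MvPolynomial (Fin 3) R,
      (∀ k j, (B k).degreeOf j ≤ n) ∧ C g * X i ^ n = ∑ k, B k * G k := by
  classical
  obtain ⟨m, hm⟩ : ∃ m, m = 3 * N := ⟨_, rfl⟩
  obtain ⟨n, hn⟩ : ∃ n, n = m + e := ⟨_, rfl⟩
  obtain ⟨A, hA⟩ : ∃ A : Fin 3 × SD m → SD n → R,
      A = fun κ α => coeff α.1 (monomial κ.2.1 1 * G κ.1) := ⟨_, rfl⟩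
  -- all monomials of degree `n`
  have h1 : ∀ α : SD n, ∃ G' : Fin 3 → MvPolynomial (Fin 3) L,
      monomial α.1 1 = ∑ k, G' k * map f (G k) := by
    intro α
    have hα : α.1.degree = n := mem_SD.1 α.2
    have h2 : ∃ i, N ≤ α.1 i := by
      by_contra hcon
      push Not at hcon
      have h3 : α.1.degree = α.1 0 + α.1 1 + α.1 2 := by
        rw [Finsupp.degree_eq_sum, Fin.sum_univ_three]
      have h4 := hcon 0
      have h5 := hcon 1
      have h6 := hcon 2
      omega
    obtain ⟨i, hi⟩ := h2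
    obtain ⟨B, hB⟩ := h i
    refine ⟨fun k => monomial (α.1 - Finsupp.single i N) 1 * B k, ?_⟩
    have h3 : (monomial α.1 1 : MvPolynomial (Fin 3) L) =
        monomial (α.1 - Finsupp.single i N) 1 * X i ^ N := by
      rw [X_pow_eq_monomial, monomial_mul, one_mul, tsub_add_cancel_of_le]
      rw [Finsupp.single_le_iff]
      exact hi
    rw [h3, hB, Finset.mul_sum]
    exact Finset.sum_congr rfl fun k _ => by rw [mul_assoc]
  choose G' hG' using h1
  have h2 : ∀ α α' : SD n, ∑ κ : Fin 3 × SD m, coeff κ.2.1 (G' α κ.1) * f (A κ α') =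
      (1 : Matrix (SD n) (SD n) L) α α' := by
    intro α α'
    have h3 := congrArg (coeff α'.1) (hG' α)
    have h4 : α'.1.degree = m + e := (mem_SD.1 α'.2).trans hn
    rw [coeff_sum, coeff_monomial] at h3
    have h5 : (1 : Matrix (SD n) (SD n) L) α α' = if α.1 = α'.1 then 1 else 0 := by
      rw [Matrix.one_apply]
      by_cases h6 : α = α'
      · rw [if_pos h6, if_pos (by rw [h6])]
      · rw [if_neg h6, if_neg fun h7 => h6 (Subtype.ext h7)]
    rw [h5, h3, Fintype.sum_prod_type]
    refine Finset.sum_congr rfl fun k _ => ?_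
    rw [coeff_mul_hom ((hG k).map f) h4, ← Finset.sum_coe_sort (SD m)]
    refine Finset.sum_congr rfl fun β _ => ?_
    rw [hA]
    congr 1
    change f (coeff α'.1 (monomial β.1 1 * G k)) = _
    rw [← coeff_map, map_mul, map_monomial, map_one]
  -- a choice of rows
  obtain ⟨r, hr⟩ : ∃ r : SD n → Fin 3 × SD m,
      (Matrix.of fun α α' => f (A (r α) α') : Matrix (SD n) (SD n) L).det ≠ 0 := by
    by_contra hcon
    push Not at hcon
    have h3 : (1 : Matrix (SD n) (SD n) L).det = 0 := by
      have h4 : (1 : Matrix (SD n) (SD n) L) = fun α => ∑ κ : Fin 3 × SD m,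
          coeff κ.2.1 (G' α κ.1) • (fun α' => f (A κ α')) := by
        funext α α'
        rw [← h2, Finset.sum_apply]
        rfl
      have h6 : (1 : Matrix (SD n) (SD n) L).det =
          (Matrix.detRowAlternating (R := L) (n := SD n)).toMultilinearMap
            (fun α => ∑ κ : Fin 3 × SD m, coeff κ.2.1 (G' α κ.1) • (fun α' => f (A κ α'))) := by
        rw [← h4]
        rfl
      rw [h6, MultilinearMap.map_sum]
      refine Finset.sum_eq_zero fun r _ => ?_
      rw [MultilinearMap.map_smul_univ]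
      have h7 := hcon r
      have h8 : (Matrix.detRowAlternating (R := L) (n := SD n)).toMultilinearMap
          (fun α α' => f (A (r α) α')) = 0 := h7
      rw [h8, smul_zero]
    rw [Matrix.det_one] at h3
    exact one_ne_zero h3
  obtain ⟨Ar, hAr⟩ : ∃ Ar : Matrix (SD n) (SD n) R, Ar = Matrix.of fun α α' => A (r α) α' :=
    ⟨_, rfl⟩
  refine ⟨n, Ar.det, ?_, fun i => ?_⟩
  · rw [RingHom.map_det, hAr]
    exact hr
  obtain ⟨α0, hα0⟩ : ∃ α0 : SD n, α0.1 = Finsupp.single i n :=
    ⟨⟨Finsupp.single i n, mem_SD.2 (Finsupp.degree_single _ _)⟩, rfl⟩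
  refine ⟨fun k => ∑ α : SD n, if (r α).1 = k then
    C (Ar.adjugate α0 α) * monomial (r α).2.1 1 else 0, fun k j => ?_, ?_⟩
  · refine (degreeOf_sum_le _ _ _).trans ?_
    refine Finset.sup_le fun α _ => ?_
    split_ifs
    · refine (degreeOf_C_mul_le _ _ _).trans ?_
      rw [degreeOf_le_iff]
      intro x hx
      have h3 := support_monomial_subset hx
      rw [Finset.mem_singleton] at h3
      rw [h3]
      have h4 := mem_SD.1 (r α).2.2
      have h5 := Finsupp.le_degree j (r α).2.1
      omega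
    · rw [degreeOf_zero]
      exact Nat.zero_le _
  · have h3 : ∑ k, (∑ α : SD n, if (r α).1 = k then
        C (Ar.adjugate α0 α) * monomial (r α).2.1 1 else 0) * G k =
        ∑ α : SD n, C (Ar.adjugate α0 α) * (monomial (r α).2.1 1 * G (r α).1) := by
      simp only [Finset.sum_mul]
      rw [Finset.sum_comm]
      refine Finset.sum_congr rfl fun α _ => ?_
      rw [Finset.sum_eq_single (r α).1]
      · rw [if_pos rfl, mul_assoc]
      · intro k _ hk
        rw [if_neg (Ne.symm hk), zero_mul]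
      · intro hk
        exact absurd (Finset.mem_univ _) hk
    rw [h3, X_pow_eq_monomial]
    ext x
    rw [coeff_C_mul, coeff_sum, coeff_monomial]
    by_cases hx : x ∈ SD n
    · have h4 := congrFun (congrFun (Matrix.adjugate_mul Ar) α0) ⟨x, hx⟩
      rw [Matrix.mul_apply, Matrix.smul_apply, Matrix.one_apply] at h4
      have h5 : (if Finsupp.single i n = x then (1 : R) else 0) =
          if α0 = ⟨x, hx⟩ then 1 else 0 := by
        by_cases h6 : α0 = ⟨x, hx⟩
        · rw [if_pos h6, if_pos (by rw [← hα0, h6])]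
        · rw [if_neg h6, if_neg fun h7 => h6 (Subtype.ext (hα0.trans h7))]
      rw [h5, ← smul_eq_mul, ← h4]
      refine Finset.sum_congr rfl fun α _ => ?_
      rw [coeff_C_mul, hAr, hA]
      rfl
    · have h4 : x.degree ≠ n := fun h4 => hx (mem_SD.2 h4)
      rw [if_neg, mul_zero]
      · symm
        refine Finset.sum_eq_zero fun α _ => ?_
        rw [coeff_C_mul, coeff_hom (hG _), mul_zero]
        rw [mem_SD.1 (r α).2.2]
        omega
      · intro h5
        apply h4
        rw [← h5]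
        exact Finsupp.degree_single _ _

end Pool.Agent.Q13.UF
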