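import Pool.Agent.Q13.KO.Orb
import Pool.Agent.W602.GT.Der
import Mathlib.RingTheory.MvPolynomial.EulerIdentity

/-!
Nonsingular plane curves of degree at least four are of general type, in terms of function fields.
-/

set_option autoImplicit false

namespace Pool.Agent.Q13.UF

open MvPolynomial FF
open Pool.Agent.W602.GT

section

variable {K : Type} [Field K] [Algebra ℂ K]

theorem chain {k K : Type} [Field k] [Field K] [Algebra k K] {n : ℕ} (E : Derivation k K K)
    (z : Fin n → K) (G : MvPolynomial (Fin n) k) :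
    E (aeval z G) = ∑ i, aeval z (pderiv i G) * E (z i) := by
  classical
  induction G using MvPolynomial.induction_on with
  | C a =>
    rw [aeval_C, E.map_algebraMap]
    symm
    refine Finset.sum_eq_zero fun i _ => ?_
    rw [pderiv_C, map_zero, zero_mul]
  | add p q hp hq =>
    rw [map_add, map_add, hp, hq, ← Finset.sum_add_distrib]
    refine Finset.sum_congr rfl fun i _ => ?_
    rw [map_add, map_add, add_mul]
  | mul_X p j hp =>
    rw [map_mul, aeval_X, E.leibniz, hp, smul_eq_mul, smul_eq_mul]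
    have h1 : ∀ i, aeval z (pderiv i (p * X j)) * E (z i) =
        z j * (aeval z (pderiv i p) * E (z i)) + if j = i then aeval z p * E (z i) else 0 := by
      intro i
      rw [pderiv_mul, pderiv_X, map_add, map_mul, map_mul, aeval_X]
      by_cases hij : j = i
      · subst hij
        rw [Pi.single_eq_same, map_one, if_pos rfl]
        ring
      · rw [Pi.single_eq_of_ne hij, map_zero, if_neg hij]
        ring
    rw [Finset.sum_congr rfl fun i _ => h1 i, Finset.sum_add_distrib, ← Finset.mul_sum,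
      Finset.sum_ite_eq, if_pos (Finset.mem_univ j)]
    ring

/-- the cross product -/
def cr (a b : Fin 3 → K) : Fin 3 → K :=
  ![a 1 * b 2 - a 2 * b 1, a 2 * b 0 - a 0 * b 2, a 0 * b 1 - a 1 * b 0]

theorem cr_prop {a b g : Fin 3 → K} (hA : ∑ i, a i * g i = 0) (hB : ∑ i, b i * g i = 0)
    (k l : Fin 3) : cr a b k * g l = cr a b l * g k := by
  rw [Fin.sum_univ_three] at hA hB
  have h01 : (a 1 * b 2 - a 2 * b 1) * g 1 = (a 2 * b 0 - a 0 * b 2) * g 0 := by
    linear_combination b 2 * hA - a 2 * hB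
  have h12 : (a 2 * b 0 - a 0 * b 2) * g 2 = (a 0 * b 1 - a 1 * b 0) * g 1 := by
    linear_combination b 0 * hA - a 0 * hB
  have h20 : (a 0 * b 1 - a 1 * b 0) * g 0 = (a 1 * b 2 - a 2 * b 1) * g 2 := by
    linear_combination b 1 * hA - a 1 * hB
  unfold cr
  fin_cases k <;> fin_cases l <;> simp <;>
    (first
      | exact h01
      | exact h01.symm
      | exact h12
      | exact h12.symm
      | exact h20
      | exact h20.symm)

theorem cr_scale {y z : Fin 3 → K} {c : K} (E : Derivation ℂ K K) (h : ∀ j, y j = z j * c)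
    (k : Fin 3) : cr y (fun j => E (y j)) k = c ^ 2 * cr z (fun j => E (z j)) k := by
  have h1 : ∀ j, E (y j) = z j * E c + c * E (z j) := fun j => by
    rw [h j, E.leibniz, smul_eq_mul, smul_eq_mul]
  unfold cr
  fin_cases k <;> simp only [h1, h] <;> simp <;> ring

theorem der_zero {y : Fin 3 → K} (hc : coords ℂ y = ⊤) {E : Derivation ℂ K K}
    (h : ∀ i j, y j * E (y i) = y i * E (y j)) : E = 0 := by
  refine der_eq_zero E {z | ∃ i j, y j ≠ 0 ∧ z = y i / y j} ?_ ?_
  · have h1 : IntermediateField.adjoin ℂ {z | ∃ i j, y j ≠ 0 ∧ z = y i / y j} = ⊤ := hc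
    rw [h1]
    exact ⟨fun x => isAlgebraic_algebraMap (⟨x, trivial⟩ : (⊤ : IntermediateField ℂ K))⟩
  · rintro z ⟨i, j, hj, rfl⟩
    have h1 : y i = y i / y j * y j := by rw [div_mul_cancel₀ _ hj]
    have h2 : E (y i) = y i / y j * E (y j) + y j * E (y i / y j) := by
      conv_lhs => rw [h1]
      rw [E.leibniz, smul_eq_mul, smul_eq_mul]
    have h3 := h i j
    rw [h2] at h3
    have h4 : y j * (y i / y j * E (y j)) = y i * E (y j) := by
      field_simp
    have h5 : y j * (y j * E (y i / y j)) = 0 := by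
      linear_combination h3 - h4
    rcases mul_eq_zero.1 h5 with h6 | h6
    · exact absurd h6 hj
    · exact (mul_eq_zero.1 h6).resolve_left hj

theorem exists_min (P : Place ℂ K) {y : Fin 3 → K} (hy : y ≠ 0) :
    ∃ i, y i ≠ 0 ∧ ∀ j, P.Reg (y j / y i) := by
  classical
  obtain ⟨a, ha⟩ := Function.ne_iff.1 hy
  obtain ⟨i, hi, hmin⟩ := Finset.exists_min_image (Finset.univ.filter fun i => y i ≠ 0)
    (fun i => P.ord (y i)) ⟨a, Finset.mem_filter.2 ⟨Finset.mem_univ _, ha⟩⟩
  have hi0 := (Finset.mem_filter.1 hi).2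
  refine ⟨i, hi0, fun j => ?_⟩
  by_cases hj : y j = 0
  · rw [hj, zero_div]
    exact P.reg_zero
  · refine Or.inr ?_
    rw [P.ord_div hj hi0]
    have h1 := hmin j (Finset.mem_filter.2 ⟨Finset.mem_univ _, hj⟩)
    omega

/-- **Nonsingular plane curves of degree at least four.** -/
theorem gt_plane {F : MvPolynomial (Fin 3) ℂ} {D N : ℕ} (hD : 4 ≤ D) (hF : F.IsHomogeneous D)
    (hns : ∀ i, ∃ B : Fin 3 → MvPolynomial (Fin 3) ℂ, X i ^ N = ∑ k, B k * pderiv k F)
    {y : Fin 3 → K} (hyF : aeval y F = 0) (hy0 : y ≠ 0) (hc : coords ℂ y = ⊤) {w : ℕ}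
    (hw : Algebra.trdeg ℂ K = w) (hw0 : 0 < w) : GeneralType ℂ K w := by
  classical
  obtain ⟨g, hg⟩ : ∃ g : Fin 3 → K, g = fun k => aeval y (pderiv k F) := ⟨_, rfl⟩
  have hgk : ∀ k, aeval y (pderiv k F) = g k := fun k => by rw [hg]
  -- some partial derivative does not vanish
  have hk0 : ∃ k, g k ≠ 0 := by
    by_contra hcon
    push Not at hcon
    obtain ⟨a, ha⟩ := Function.ne_iff.1 hy0
    obtain ⟨B, hB⟩ := hns a
    have h1 := congrArg (aeval y) hB
    rw [map_pow, aeval_X, map_sum, Finset.sum_eq_zero fun k _ => by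
      rw [map_mul, hgk, hcon, mul_zero]] at h1
    exact pow_ne_zero _ ha h1
  obtain ⟨k0, hk0⟩ := hk0
  have hA : ∑ i, y i * g i = 0 := by
    have h1 := congrArg (aeval y) hF.sum_X_mul_pderiv
    rw [map_sum, map_nsmul, hyF, smul_zero] at h1
    rw [← h1]
    refine Finset.sum_congr rfl fun i _ => ?_
    rw [map_mul, aeval_X, hgk]
  have hB : ∀ E : Derivation ℂ K K, ∑ i, E (y i) * g i = 0 := by
    intro E
    have h1 := chain E y F
    rw [hyF, map_zero] at h1
    rw [h1]
    refine Finset.sum_congr rfl fun i _ => ?_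
    rw [hgk, mul_comm]
  obtain ⟨lam, hlam⟩ : ∃ lam : Derivation ℂ K K → K,
      lam = fun E => cr y (fun j => E (y j)) k0 / g k0 := ⟨_, rfl⟩
  have hlk : ∀ E k, lam E * g k = cr y (fun j => E (y j)) k := by
    intro E k
    have h1 := cr_prop hA (hB E) k0 k
    rw [hlam]
    change cr y (fun j => E (y j)) k0 / g k0 * g k = _
    rw [div_mul_eq_mul_div, h1, mul_div_assoc, div_self hk0, mul_one]
  have hlz : ∀ E, lam E = 0 → E = 0 := by
    intro E hE
    have h1 : ∀ k, cr y (fun j => E (y j)) k = 0 := fun k => by rw [← hlk, hE, zero_mul]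
    have e0 : y 1 * E (y 2) - y 2 * E (y 1) = 0 := h1 0
    have e1 : y 2 * E (y 0) - y 0 * E (y 2) = 0 := h1 1
    have e2 : y 0 * E (y 1) - y 1 * E (y 0) = 0 := h1 2
    refine der_zero hc fun i j => ?_
    have h01 : y 0 * E (y 1) = y 1 * E (y 0) := sub_eq_zero.1 e2
    have h12 : y 1 * E (y 2) = y 2 * E (y 1) := sub_eq_zero.1 e0
    have h20 : y 2 * E (y 0) = y 0 * E (y 2) := sub_eq_zero.1 e1
    fin_cases i <;> fin_cases j <;>
      (first
        | rfl
        | exact h01
        | exact h01.symm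
        | exact h12
        | exact h12.symm
        | exact h20
        | exact h20.symm)
  have hls : ∀ (a : K) E, lam (a • E) = a * lam E := by
    intro a E
    rw [hlam]
    change cr y (fun j => (a • E) (y j)) k0 / g k0 = a * (cr y (fun j => E (y j)) k0 / g k0)
    have h1 : cr y (fun j => (a • E) (y j)) k0 = a * cr y (fun j => E (y j)) k0 := by
      unfold cr
      fin_cases k0 <;> simp <;> ring
    rw [h1, mul_div_assoc]
  have hlsub : ∀ E E', lam (E - E') = lam E - lam E' := by
    intro E E'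
    rw [hlam]
    change cr y (fun j => (E - E') (y j)) k0 / g k0 = cr y (fun j => E (y j)) k0 / g k0 -
      cr y (fun j => E' (y j)) k0 / g k0
    have h1 : cr y (fun j => (E - E') (y j)) k0 = cr y (fun j => E (y j)) k0 -
        cr y (fun j => E' (y j)) k0 := by
      unfold cr
      fin_cases k0 <;> simp <;> ring
    rw [h1, sub_div]
  obtain ⟨z, hz⟩ := Pool.Agent.Y173.QA.exists_tb hw
  obtain ⟨E, hE⟩ := Pool.Agent.Y173.QA.exists_duals hz
  -- dimension one
  have hw1 : w = 1 := by
    by_contra hne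
    obtain ⟨i0, hi0⟩ : ∃ i0 : Fin w, i0 = ⟨0, hw0⟩ := ⟨_, rfl⟩
    obtain ⟨i1, hi1⟩ : ∃ i1 : Fin w, i1 = ⟨1, by omega⟩ := ⟨_, rfl⟩
    have hi : i0 ≠ i1 := by
      rw [hi0, hi1]
      intro h
      exact absurd (Fin.mk.inj h) (by norm_num)
    have h1 : lam (E i1) • E i0 - lam (E i0) • E i1 = 0 := by
      apply hlz
      rw [hlsub, hls, hls]
      ring
    have h2 := DFunLike.congr_fun h1 (z i0)
    rw [Derivation.sub_apply, Derivation.smul_apply, Derivation.smul_apply, hE, hE, if_pos rfl,
      if_neg hi.symm, smul_zero, sub_zero, smul_eq_mul, mul_one, Derivation.zero_apply] at h2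
    have h3 := hlz _ h2
    have h4 := hE i1 i1
    rw [h3, if_pos rfl, Derivation.zero_apply] at h4
    exact zero_ne_one h4
  subst hw1
  have hE0 : lam (E 0) ≠ 0 := by
    intro h1
    have h3 := hlz _ h1
    have h4 := hE 0 0
    rw [h3, if_pos rfl, Derivation.zero_apply] at h4
    exact zero_ne_one h4
  obtain ⟨a, ha⟩ := Function.ne_iff.1 hy0
  have ha : y a ≠ 0 := ha
  have hb : ∃ b, y a * (E 0) (y b) ≠ y b * (E 0) (y a) := by
    by_contra hcon
    push Not at hcon
    have h1 : E 0 = 0 := by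
      refine der_zero hc fun i j => ?_
      apply mul_left_cancel₀ ha
      linear_combination y j * hcon i - y i * hcon j
    apply hE0
    rw [h1]
    have h2 := hls 0 (0 : Derivation ℂ K K)
    rwa [zero_smul, zero_mul] at h2
  obtain ⟨b, hb⟩ := hb
  -- regularity
  have hreg : ∀ (Q : MvPolynomial (Fin 3) ℂ), Q.IsHomogeneous (D - 3) → ∀ P : Place ℂ K,
      ∀ E : Derivation ℂ K K, DerReg P E → P.Reg (aeval y Q * lam E) := by
    intro Q hQ P E hE
    obtain ⟨i, hi, hz⟩ := exists_min P hy0
    obtain ⟨u, hu⟩ : ∃ u : Fin 3 → K, u = fun j => y j / y i := ⟨_, rfl⟩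
    have hyu : ∀ j, y j = u j * y i := fun j => by
      rw [hu]
      exact (div_mul_cancel₀ _ hi).symm
    have huR : ∀ j, P.Reg (u j) := fun j => by
      rw [hu]
      exact hz j
    have hsc : ∀ {G : MvPolynomial (Fin 3) ℂ} {e : ℕ}, G.IsHomogeneous e →
        aeval y G = y i ^ e * aeval u G := by
      intro G e hG
      have h1 : y = fun j => y i * u j := by
        funext j
        rw [hyu j, mul_comm]
      conv_lhs => rw [h1]
      exact Pool.Agent.Q13.KO.aeval_scale_hom hG u (y i)
    obtain ⟨B, hB⟩ := hns i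
    have h1 := congrArg (aeval u) hB
    have hui : u i = 1 := by
      rw [hu]
      exact div_self hi
    rw [map_pow, aeval_X, hui, one_pow, map_sum] at h1
    have h2 : ∀ k, g k = y i ^ (D - 1) * aeval u (pderiv k F) := fun k => by
      rw [← hgk, hsc hF.pderiv]
    have h3 : ∀ k, y i ^ (D - 3) * (lam E * aeval u (pderiv k F)) =
        cr u (fun j => E (u j)) k := by
      intro k
      have h4 := hlk E k
      rw [cr_scale E hyu, h2] at h4
      have h5 : y i ^ (D - 1) = y i ^ (D - 3) * y i ^ 2 := by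
        rw [← pow_add]
        congr 1
        omega
      rw [h5] at h4
      apply mul_left_cancel₀ (pow_ne_zero 2 hi)
      rw [← h4]
      ring
    have h4 : aeval y Q * lam E = ∑ k, aeval u (B k) * (aeval u Q * cr u (fun j => E (u j)) k) := by
      calc aeval y Q * lam E = aeval y Q * lam E * 1 := by rw [mul_one]
        _ = ∑ k, aeval u (B k) * (aeval u Q * cr u (fun j => E (u j)) k) := by
          rw [h1, Finset.mul_sum]
          refine Finset.sum_congr rfl fun k _ => ?_
          rw [map_mul, ← h3, hsc hQ]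
          ring
    rw [h4]
    have hcrR : ∀ k, P.Reg (cr u (fun j => E (u j)) k) := by
      have h5 : ∀ i j, P.Reg (u i * E (u j)) := fun i j => P.reg_mul (huR i) (hE _ (huR j))
      have h6 : ∀ i j i' j', P.Reg (u i * E (u j) - u i' * E (u j')) := by
        intro i j i' j'
        rw [sub_eq_add_neg]
        exact P.reg_add (h5 _ _) (P.reg_neg (h5 _ _))
      intro k
      unfold cr
      fin_cases k
      · exact h6 1 2 2 1
      · exact h6 2 0 0 2
      · exact h6 0 1 1 0
    rw [Fin.sum_univ_three]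
    have h7 : ∀ k, P.Reg (aeval u (B k) * (aeval u Q * cr u (fun j => E (u j)) k)) := fun k =>
      P.reg_mul (Pool.Agent.Q13.KO.reg_aeval P huR _)
        (P.reg_mul (Pool.Agent.Q13.KO.reg_aeval P huR _) (hcrR k))
    exact P.reg_add (P.reg_add (h7 0) (h7 1)) (h7 2)
  -- the two differentials
  obtain ⟨Q, hQ⟩ : ∃ Q : Fin 2 → MvPolynomial (Fin 3) ℂ,
      Q = ![X a ^ (D - 3), X b * X a ^ (D - 4)] := ⟨_, rfl⟩
  have hQh : ∀ j, (Q j).IsHomogeneous (D - 3) := by
    intro j
    rw [hQ]
    fin_cases j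
    · exact isHomogeneous_X_pow _ _
    · have h1 := (isHomogeneous_X ℂ b).mul (isHomogeneous_X_pow (R := ℂ) a (D - 4))
      have h2 : 1 + (D - 4) = D - 3 := by omega
      rw [h2] at h1
      exact h1
  refine ⟨hw, 1, one_pos, fun j Δ => aeval y (Q j) * lam (Δ 0), ?_, ?_, E, ?_, ?_⟩
  · intro j A Δ
    change aeval y (Q j) * lam (∑ j, A 0 j • Δ j) = A.det ^ 1 * (aeval y (Q j) * lam (Δ 0))
    rw [Fin.sum_univ_one, hls, Matrix.det_fin_one, pow_one]
    ring
  · intro P _ j Δ hΔ
    exact hreg (Q j) (hQh j) P (Δ 0) (hΔ 0)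
  · change aeval y (Q 0) * lam (E 0) ≠ 0
    refine mul_ne_zero ?_ hE0
    rw [hQ]
    change aeval y (X a ^ (D - 3)) ≠ 0
    rw [map_pow, aeval_X]
    exact pow_ne_zero _ ha
  · have h1 : (fun i : Fin 1 => aeval y (Q i.succ) * lam (E 0) / (aeval y (Q 0) * lam (E 0))) =
        fun _ => y b / y a := by
      funext i
      have h2 : Q i.succ = X b * X a ^ (D - 4) := by
        rw [hQ, Subsingleton.elim i 0]
        rfl
      have h3 : Q 0 = X a ^ (D - 3) := by rw [hQ]; rfl
      rw [h2, h3, map_mul, map_pow, map_pow, aeval_X, aeval_X, mul_div_mul_right _ _ hE0]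
      have h4 : y a ^ (D - 3) = y a ^ (D - 4) * y a := by
        rw [← pow_succ]
        congr 1
        omega
      rw [h4]
      field_simp
    rw [h1, algebraicIndependent_unique_type_iff]
    intro halg
    obtain ⟨c, hc'⟩ := const_of_algebraic halg
    have h2 : (E 0) (y b / y a) = 0 := by
      rw [hc', (E 0).map_algebraMap]
    apply hb
    have h3 : y b = y b / y a * y a := by rw [div_mul_cancel₀ _ ha]
    have h4 : (E 0) (y b) = y b / y a * (E 0) (y a) := by
      conv_lhs => rw [h3]
      rw [(E 0).leibniz, smul_eq_mul, smul_eq_mul, h2, mul_zero, add_zero]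
    rw [h4]
    field_simp

end

end Pool.Agent.Q13.UF
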