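import Pool.Agent.Q13.UF.Per
import Pool.Agent.Q13.UF.Plane

/-!
All nonsingular plane curves of degree `D ≥ 4` at the same time.
-/

set_option autoImplicit false

namespace Pool.Agent.Q13.UF

open MvPolynomial Pool.Agent.Q13.UN

section

variable {L : Type} [Field L] {D N M d : ℕ}

/-- The plane curve `F = 0` is nonsingular: `X i ^ N` is a combination of the partial derivatives
of `F`, with coefficients of degree at most `N` in each variable. -/
def NS (N : ℕ) (F : MvPolynomial (Fin 3) L) : Prop :=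
  ∀ i, ∃ B : Fin 3 → MvPolynomial (Fin 3) L, (∀ k j, (B k).degreeOf j ≤ N) ∧
    X i ^ N = ∑ k, B k * pderiv k F

theorem deg_of {e : Fin 3 →₀ ℕ} (h : Finsupp.weight (1 : Fin 3 → ℕ) e = D) : e.degree = D := by
  rw [Finsupp.degree_eq_weight_one]
  exact h

/-- the parameters -/
abbrev IT (D N M d : ℕ) : Type :=
  (Fin 3 → Fin (D + 1)) ⊕ (Fin 3 × Fin 3 × (Fin 3 → Fin (N + 1))) ⊕ UV 1 M 2 d

/-- the polynomial with given coefficients -/
noncomputable def pol {R : Type} [CommRing R] (P : (Fin 3 → Fin (D + 1)) → Prop)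
    [DecidablePred P] (c : (Fin 3 → Fin (D + 1)) → R) : MvPolynomial (Fin 3) R :=
  ∑ μ ∈ Finset.univ.filter P, monomial (expo μ) (c μ)

theorem map_pol {R S : Type} [CommRing R] [CommRing S] (f : R →+* S)
    (P : (Fin 3 → Fin (D + 1)) → Prop) [DecidablePred P] (c : (Fin 3 → Fin (D + 1)) → R) :
    MvPolynomial.map f (pol P c) = pol P fun μ => f (c μ) := by
  unfold pol
  rw [map_sum]
  exact Finset.sum_congr rfl fun μ _ => map_monomial _ _ _

theorem pol_coeff {G : MvPolynomial (Fin 3) L} (hG : ∀ j, G.degreeOf j ≤ D)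
    (P : (Fin 3 → Fin (D + 1)) → Prop) [DecidablePred P]
    (hP : ∀ μ : Fin 3 → Fin (D + 1), expo μ ∈ G.support → P μ) :
    pol P (fun μ => G.coeff (expo μ)) = G := by
  classical
  conv_rhs => rw [G.as_sum]
  unfold pol
  have h1 : ∑ μ ∈ Finset.univ.filter P, monomial (expo μ) (G.coeff (expo μ)) =
      ∑ e ∈ (Finset.univ.filter P).image (expo : (Fin 3 → Fin (D + 1)) → Fin 3 →₀ ℕ),
        monomial e (G.coeff e) := by
    rw [Finset.sum_image fun μ _ ν _ h => expo_inj h]
  rw [h1]
  symm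
  refine Finset.sum_subset (fun e he => ?_) fun e _ he => ?_
  · have h2 : expo (fun j => (⟨e j, Nat.lt_succ_of_le
        ((monomial_le_degreeOf j he).trans (hG j))⟩ : Fin (D + 1))) = e := by
      ext j
      rfl
    refine Finset.mem_image.2 ⟨_, Finset.mem_filter.2 ⟨Finset.mem_univ _, hP _ ?_⟩, h2⟩
    rw [h2]
    exact he
  · rw [notMem_support_iff.1 he, monomial_zero]

/-- degree `D` -/
abbrev DegD (D : ℕ) (μ : Fin 3 → Fin (D + 1)) : Prop := (expo μ).degree = D

theorem pol_hom {R : Type} [CommRing R] (c : (Fin 3 → Fin (D + 1)) → R) :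
    (pol (DegD D) c).IsHomogeneous D := by
  unfold pol
  refine IsHomogeneous.sum _ _ _ fun μ hμ => ?_
  exact isHomogeneous_monomial _ (Finset.mem_filter.1 hμ).2

/-- the universal form -/
noncomputable def FU (k : Type) [Field k] (D N M d : ℕ) :
    MvPolynomial (Fin 3) (MvPolynomial (IT D N M d) k) :=
  pol (DegD D) fun μ => X (Sum.inl μ)

/-- the universal coefficients of the certificate -/
noncomputable def BU (k : Type) [Field k] (D N M d : ℕ) (i l : Fin 3) :
    MvPolynomial (Fin 3) (MvPolynomial (IT D N M d) k) :=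
  pol (fun _ => True) fun μ => X (Sum.inr (Sum.inl (i, l, μ)))

/-- the universal relations -/
noncomputable def RU (k : Type) [Field k] (D N M d : ℕ) (i : Fin 3) :
    MvPolynomial (Fin 3) (MvPolynomial (IT D N M d) k) :=
  X i ^ N - ∑ l, BU k D N M d i l * pderiv l (FU k D N M d)

/-- the equations -/
def CU (k : Type) [Field k] (D N M d : ℕ) : Set (MvPolynomial (IT D N M d) k) :=
  {g | ∃ i e, g = (RU k D N M d i).coeff e}

theorem cu_iff {k A : Type} [Field k] [CommRing A] [Algebra k A] (v : IT D N M d → A) :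
    (∀ g ∈ CU k D N M d, aeval v g = 0) ↔ ∀ i, (X i : MvPolynomial (Fin 3) A) ^ N =
      ∑ l, pol (fun _ => True) (fun μ => v (Sum.inr (Sum.inl (i, l, μ)))) *
        pderiv l (pol (DegD D) fun μ => v (Sum.inl μ)) := by
  obtain ⟨f, hf⟩ : ∃ f : MvPolynomial (IT D N M d) k →+* A,
      f = ((aeval v : MvPolynomial (IT D N M d) k →ₐ[k] A) : _ →+* A) := ⟨_, rfl⟩
  have hfX : ∀ z, f (X z) = v z := fun z => by
    rw [hf]
    exact aeval_X v z
  have h1 : ∀ i, MvPolynomial.map f (RU k D N M d i) = X i ^ N -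
      ∑ l, pol (fun _ => True) (fun μ => v (Sum.inr (Sum.inl (i, l, μ)))) *
        pderiv l (pol (DegD D) fun μ => v (Sum.inl μ)) := by
    intro i
    unfold RU BU FU
    rw [map_sub, map_pow, map_X, map_sum]
    congr 1
    refine Finset.sum_congr rfl fun l _ => ?_
    rw [map_mul, map_pol, ← pderiv_map, map_pol]
    simp only [hfX]
  constructor
  · intro h i
    have h2 : MvPolynomial.map f (RU k D N M d i) = 0 := by
      ext e
      rw [coeff_map, coeff_zero, hf]
      exact h _ ⟨i, e, rfl⟩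
    rw [h1, sub_eq_zero] at h2
    exact h2
  · rintro h _ ⟨i, e, rfl⟩
    have h2 : MvPolynomial.map f (RU k D N M d i) = 0 := by
      rw [h1, sub_eq_zero]
      exact h i
    have h3 := congrArg (coeff e) h2
    rw [coeff_map, coeff_zero, hf] at h3
    exact h3

/-- the universal map -/
noncomputable def TTU (k : Type) [Field k] (D N M d : ℕ) :
    IT D N M d → MvPolynomial (IT D N M d) k
  | Sum.inl z => X (Sum.inl z)
  | Sum.inr (Sum.inl z) => X (Sum.inr (Sum.inl z))
  | Sum.inr (Sum.inr z) => rename (fun u => Sum.inr (Sum.inr u)) (TU k 1 M 2 d 0 z)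

/-- the universal tuple -/
noncomputable def PPU (k : Type) [Field k] (D N M d : ℕ) (j : Fin (2 + 1)) :
    MvPolynomial (IT D N M d) k := rename (fun u => Sum.inr (Sum.inr u)) (PU k 1 M 2 d j)

/-- the parameters of the orbit -/
def stp {A : Type} (a : (Fin 3 → Fin (D + 1)) → A) (b : Fin 3 × Fin 3 × (Fin 3 → Fin (N + 1)) → A)
    (c : UV 1 M 2 d → A) : IT D N M d → A
  | Sum.inl z => a z
  | Sum.inr (Sum.inl z) => b z
  | Sum.inr (Sum.inr z) => c z

theorem orb_TTU {k : Type} [Field k] [Algebra k L] (a : (Fin 3 → Fin (D + 1)) → L)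
    (b : Fin 3 × Fin 3 × (Fin 3 → Fin (N + 1)) → L) (c : UV 1 M 2 d → L) (m : ℕ) :
    orb (TTU k D N M d) (stp a b c) m = stp a b (orb (TU k 1 M 2 d 0) c m) := by
  induction m with
  | zero => rfl
  | succ m ih =>
    funext z
    change aeval (orb (TTU k D N M d) (stp a b c) m) (TTU k D N M d z) = _
    rw [ih]
    rcases z with z | z | z
    · exact aeval_X _ _
    · exact aeval_X _ _
    · change aeval (stp a b (orb (TU k 1 M 2 d 0) c m))
        (rename (fun u => Sum.inr (Sum.inr u)) (TU k 1 M 2 d 0 z)) =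
        aeval (orb (TU k 1 M 2 d 0) c m) (TU k 1 M 2 d 0 z)
      rw [aeval_rename]
      rfl

theorem along_TTU {k : Type} [Field k] [Algebra k L] (a : (Fin 3 → Fin (D + 1)) → L)
    (b : Fin 3 × Fin 3 × (Fin 3 → Fin (N + 1)) → L) (c : UV 1 M 2 d → L) (m : ℕ) :
    along (TTU k D N M d) (PPU k D N M d) (stp a b c) m =
      along (TU k 1 M 2 d 0) (PU k 1 M 2 d) c m := by
  funext j
  change aeval (orb (TTU k D N M d) (stp a b c) m)
    (rename (fun u => Sum.inr (Sum.inr u)) (PU k 1 M 2 d j)) = _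
  rw [orb_TTU, aeval_rename]
  rfl

end

/-- **Uniform periodicity on all nonsingular plane curves of degree `D ≥ 4`.** -/
theorem plane_unif {D : ℕ} (hD : 4 ≤ D) (N M d : ℕ) :
    ∃ s m0 p : ℕ, 0 < p ∧ ∀ (L : Type) [Field L] [Algebra ℚ L] (F : MvPolynomial (Fin 3) L)
      (T : Fin M → MvPolynomial (Fin M) L) (ψ : Fin 3 → MvPolynomial (Fin M) L) (v : Fin M → L),
      F.IsHomogeneous D → NS N F →
      (∀ i j, (T i).degreeOf j ≤ d) → (∀ i j, (ψ i).degreeOf j ≤ d) →
      (∀ m ≤ s, along (N := 2) T ψ v m ≠ 0 ∧ eval (along (N := 2) T ψ v m) F = 0) →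
      ∀ m n, m0 ≤ m → m0 ≤ n → m ≡ n [MOD p] → ∀ i j,
        along (N := 2) T ψ v m i * along (N := 2) T ψ v n j =
          along (N := 2) T ψ v m j * along (N := 2) T ψ v n i := by
  classical
  obtain ⟨s, m0, p, hp, h1⟩ := unif_fam_all (k := ℚ) (N := 2) (CU ℚ D N M d)
    (FF := {FU ℚ D N M d}) (by
      intro v hv F _ _ w y hy hc hw hw0 hX
      have h1 := hX _ (Set.mem_singleton _)
      have h0 : MvPolynomial.map ((aeval v : MvPolynomial (IT D N M d) ℚ →ₐ[ℚ] ℂ) : _ →+* ℂ)
          (FU ℚ D N M d) = pol (DegD D) fun μ => v (Sum.inl μ) := by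
        unfold FU
        rw [map_pol]
        congr 1
        funext μ
        exact aeval_X v _
      rw [h0] at h1
      exact gt_plane (N := N) hD (pol_hom _) (fun i => ⟨_, (cu_iff v).1 hv i⟩) h1 hy hc hw hw0)
    (by
      rintro _ rfl
      exact ⟨D, pol_hom _⟩) (TTU ℚ D N M d) (PPU ℚ D N M d)
  refine ⟨s, m0, p, hp, fun L _ _ F T ψ v hF hns hT hψ hoff => ?_⟩
  choose B hB1 hB2 using hns
  obtain ⟨u, hu⟩ : ∃ u : IT D N M d → L, u = stp (fun μ => F.coeff (expo μ))
      (fun z => (B z.1 z.2.1).coeff (expo z.2.2)) (stt d (fun _ : Fin 1 => T) ψ v) := ⟨_, rfl⟩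
  have hFp : pol (DegD D) (fun μ => F.coeff (expo μ)) = F := by
    refine pol_coeff (fun j => ?_) _ fun μ hμ => ?_
    · rw [degreeOf_le_iff]
      intro e he
      have h2 : e.degree = D := deg_of (hF (mem_support_iff.1 he))
      have h3 := Finsupp.le_degree j e
      omega
    · exact deg_of (hF (mem_support_iff.1 hμ))
  have hBp : ∀ i l, pol (fun _ => True) (fun μ => (B i l).coeff (expo μ)) = B i l := fun i l =>
    pol_coeff (hB1 i l) _ fun _ _ => trivial
  have h2 : ∀ m, along (TTU ℚ D N M d) (PPU ℚ D N M d) u m = along (N := 2) T ψ v m := by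
    intro m
    rw [hu, along_TTU]
    exact along_TU (fun _ => hT) hψ v 0 m
  have h3 := h1 L u ((cu_iff u).2 fun i => by
    rw [hu]
    change X i ^ N = ∑ l, pol (fun _ => True) (fun μ => (B i l).coeff (expo μ)) *
      pderiv l (pol (DegD D) fun μ => F.coeff (expo μ))
    rw [hFp, hB2 i]
    exact Finset.sum_congr rfl fun l _ => by rw [hBp]) fun m hm => by
    rw [h2]
    refine ⟨(hoff m hm).1, ?_⟩
    rintro _ rfl
    have h4 : MvPolynomial.map ((aeval u : MvPolynomial (IT D N M d) ℚ →ₐ[ℚ] L) : _ →+* L)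
        (FU ℚ D N M d) = F := by
      unfold FU
      rw [map_pol]
      conv_rhs => rw [← hFp]
      congr 1
      funext μ
      change aeval u (X (Sum.inl μ)) = _
      rw [aeval_X, hu]
      rfl
    rw [h4]
    exact (hoff m hm).2
  intro m n hm hn hmod i j
  have h5 := h3 m n hm hn hmod i j
  rwa [h2, h2] at h5

end Pool.Agent.Q13.UF
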