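import Pool.Agent.Q13.UF.Fam

/-!
Integer points of nonsingular plane curves in the orbits of polynomial maps.
-/

set_option autoImplicit false

namespace Pool.Agent.Q13.UF

open MvPolynomial Pool.Agent.Q13.UN

variable {M d : ℕ}

theorem eval_map' {R S : Type} [CommRing R] [CommRing S] {ι : Type} (f : R →+* S) (v : ι → R)
    (P : MvPolynomial ι R) : eval (fun i => f (v i)) (map f P) = f (eval v P) := by
  rw [eval_map]
  exact (eval₂_comp f v P).symm

theorem degreeOf_map' {R S : Type} [CommRing R] [CommRing S] {ι : Type} (f : R →+* S)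
    (P : MvPolynomial ι R) (j : ι) : (map f P).degreeOf j ≤ P.degreeOf j := by
  classical
  rw [degreeOf_le_iff]
  intro e he
  exact monomial_le_degreeOf j (support_map_subset f P he)

/-- the size of the value of a polynomial -/
theorem abs_eval {P : MvPolynomial (Fin M) ℤ} {H : ℤ} (hP : ∀ j, P.degreeOf j ≤ d)
    (hc : ∀ e, |P.coeff e| ≤ H) {v : Fin M → ℤ} (hH : 1 ≤ H) {a : ℕ}
    (hv : ∀ i, |v i| ≤ (2 * H) ^ a) :
    |eval v P| ≤ (2 * H) ^ (d * M + 1 + a * (d * M)) := by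
  classical
  have h2H : 1 ≤ 2 * H := by omega
  have hV : 1 ≤ (2 * H) ^ a := one_le_pow₀ h2H
  have hsub : P.support ⊆ (Finset.univ : Finset (Fin M → Fin (d + 1))).image expo := by
    intro e he
    refine Finset.mem_image.2 ⟨fun j => ⟨e j, Nat.lt_succ_of_le
      ((monomial_le_degreeOf j he).trans (hP j))⟩, Finset.mem_univ _, ?_⟩
    ext j
    rfl
  have hcard : (P.support.card : ℤ) ≤ (2 * H) ^ (d * M) := by
    have h1 : P.support.card ≤ (d + 1) ^ M := by
      refine (Finset.card_le_card hsub).trans (Finset.card_image_le.trans ?_)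
      rw [Finset.card_univ, Fintype.card_fun, Fintype.card_fin, Fintype.card_fin]
    have h2 : (d + 1) ^ M ≤ 2 ^ (d * M) := by
      rw [pow_mul]
      exact Nat.pow_le_pow_left Nat.lt_two_pow_self M
    have h3 : ((2 : ℤ)) ^ (d * M) ≤ (2 * H) ^ (d * M) := by
      apply pow_le_pow_left₀ (by norm_num)
      omega
    calc (P.support.card : ℤ) ≤ ((2 ^ (d * M) : ℕ) : ℤ) := by exact_mod_cast h1.trans h2
      _ = (2 : ℤ) ^ (d * M) := by push_cast; rfl
      _ ≤ _ := h3
  have hmon : ∀ e ∈ P.support, |P.coeff e * ∏ i, v i ^ e i| ≤ H * ((2 * H) ^ a) ^ (d * M) := by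
    intro e he
    rw [abs_mul, Finset.abs_prod]
    refine mul_le_mul (hc e) ?_ (Finset.prod_nonneg fun i _ => abs_nonneg _) (by omega)
    have h1 : ∀ i ∈ (Finset.univ : Finset (Fin M)), |v i ^ e i| ≤ ((2 * H) ^ a) ^ d := by
      intro i _
      rw [abs_pow]
      calc |v i| ^ e i ≤ ((2 * H) ^ a) ^ e i := pow_le_pow_left₀ (abs_nonneg _) (hv i) _
        _ ≤ ((2 * H) ^ a) ^ d := pow_le_pow_right₀ hV ((monomial_le_degreeOf i he).trans (hP i))
    refine (Finset.prod_le_prod (fun i _ => abs_nonneg _) h1).trans ?_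
    rw [Finset.prod_const, Finset.card_univ, Fintype.card_fin, ← pow_mul]
  rw [eval_eq']
  calc |∑ e ∈ P.support, P.coeff e * ∏ i, v i ^ e i|
      ≤ ∑ e ∈ P.support, |P.coeff e * ∏ i, v i ^ e i| := Finset.abs_sum_le_sum_abs _ _
    _ ≤ ∑ e ∈ P.support, H * ((2 * H) ^ a) ^ (d * M) := Finset.sum_le_sum hmon
    _ = P.support.card * (H * ((2 * H) ^ a) ^ (d * M)) := by
      rw [Finset.sum_const, nsmul_eq_mul]
    _ ≤ (2 * H) ^ (d * M) * ((2 * H) * ((2 * H) ^ a) ^ (d * M)) := by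
      apply mul_le_mul hcard _ (by positivity) (by positivity)
      apply mul_le_mul_of_nonneg_right (by omega) (by positivity)
    _ = (2 * H) ^ (d * M + 1 + a * (d * M)) := by
      rw [← pow_mul]
      ring

/-- the exponents -/
def ex (M d : ℕ) : ℕ → ℕ
  | 0 => 1
  | m + 1 => d * M + 1 + ex M d m * (d * M)

theorem abs_orb {T : Fin M → MvPolynomial (Fin M) ℤ} {v : ℕ → Fin M → ℤ} {H : ℤ} (hH : 1 ≤ H)
    (hT : ∀ i j, (T i).degreeOf j ≤ d) (hTc : ∀ i e, |(T i).coeff e| ≤ H)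
    (h0 : ∀ i, |v 0 i| ≤ H) (hv : ∀ m i, v (m + 1) i = eval (v m) (T i)) (m : ℕ) (i : Fin M) :
    |v m i| ≤ (2 * H) ^ ex M d m := by
  induction m generalizing i with
  | zero =>
    change |v 0 i| ≤ (2 * H) ^ 1
    have := h0 i
    rw [pow_one]
    omega
  | succ m ih =>
    rw [hv]
    exact abs_eval (hT i) (hTc i) hH ih

end Pool.Agent.Q13.UF
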