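import Pool.Agent.Q13.UN.Univ

/-!
Uniform periodicity of the orbits of polynomial maps, in families of projective varieties.
-/

set_option autoImplicit false

namespace Pool.Agent.Q13.UF

open MvPolynomial Filter Pool.Agent.TH143.DE Pool.Agent.TH143.HE Pool.Agent.TH143.TW
  Pool.Agent.TH143.GE Pool.Agent.Q13.KO Pool.Agent.Q13.UN

variable {k : Type} [Field k] {M N : ℕ}

/-- the value at the point `v` of the parameter space -/
noncomputable def ev {A : Type} [CommRing A] [Algebra k A] (v : Fin M → A) :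
    MvPolynomial (Fin M) k →+* A := ((aeval v : MvPolynomial (Fin M) k →ₐ[k] A) : _ →+* _)

theorem ev_apply {A : Type} [CommRing A] [Algebra k A] (v : Fin M → A)
    (g : MvPolynomial (Fin M) k) : ev v g = aeval v g := rfl

theorem eval₂_along {A : Type} [CommRing A] [Algebra k A] (T : Fin M → MvPolynomial (Fin M) k)
    (ψ : Fin (N + 1) → MvPolynomial (Fin M) k) (v : Fin M → A) (m : ℕ)
    (G : MvPolynomial (Fin (N + 1)) (MvPolynomial (Fin M) k)) :
    eval₂ (ev v) (along T ψ v m) G = aeval v (eval₂ (RingHom.id _) (univ T ψ m) G) := by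
  have h1 : along T ψ v m = (ev v : MvPolynomial (Fin M) k →+* A) ∘ univ T ψ m :=
    funext fun j => (aeval_univ v m j).symm
  rw [h1]
  have h2 := eval₂_comp_left (ev v : MvPolynomial (Fin M) k →+* A) (RingHom.id _) (univ T ψ m) G
  rw [RingHom.comp_id] at h2
  exact h2.symm

/-- The vector `x` represents a point of the fibre over `v` of the family given by `I`, which does
not lie in the fibre of the family given by `I'`. -/
structure OffF {L : Type} [Field L] [Algebra k L] (v : Fin M → L)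
    (I I' : Ideal (MvPolynomial (Fin (N + 1)) (MvPolynomial (Fin M) k)))
    (x : Fin (N + 1) → L) : Prop where
  ne : x ≠ 0
  mem : IsPtP (ev v) I x
  out : ¬ IsPtP (ev v) I' x

/-- the conclusion -/
def UnifF (J0 : Ideal (MvPolynomial (Fin M) k))
    (I I' : Ideal (MvPolynomial (Fin (N + 1)) (MvPolynomial (Fin M) k)))
    (T : Fin M → MvPolynomial (Fin M) k)
    (ψ : Fin (N + 1) → MvPolynomial (Fin M) k) (J : Ideal (MvPolynomial (Fin M) k)) : Prop :=
  J0 ≤ J → ∃ s m0 p : ℕ, 0 < p ∧ ∀ (L : Type) [Field L] [Algebra k L] (v : Fin M → L),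
    (∀ g ∈ J, aeval v g = 0) → (∀ m ≤ s, OffF v I I' (along T ψ v m)) →
      ∀ m n, m0 ≤ m → m0 ≤ n → m ≡ n [MOD p] →
        ∀ i j, along T ψ v m i * along T ψ v n j = along T ψ v m j * along T ψ v n i

/-- **Uniform periodicity in families.** -/
theorem unif_fam [Countable k] [Algebra k ℂ] {J0 : Ideal (MvPolynomial (Fin M) k)}
    {I I' : Ideal (MvPolynomial (Fin (N + 1)) (MvPolynomial (Fin M) k))}
    (h : ∀ v : Fin M → ℂ, (∀ g ∈ J0, aeval v g = 0) →
      SubGT (ev v : MvPolynomial (Fin M) k →+* ℂ) I I') (T : Fin M → MvPolynomial (Fin M) k)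
    (ψ : Fin (N + 1) → MvPolynomial (Fin M) k) (J : Ideal (MvPolynomial (Fin M) k)) :
    UnifF J0 I I' T ψ J := by
  refine IsNoetherian.induction (P := UnifF J0 I I' T ψ)
    (fun (J : Ideal (MvPolynomial (Fin M) k)) ih => ?_) J
  intro hJ0
  have ih' : ∀ J' > J, ∃ s m0 p : ℕ, 0 < p ∧ ∀ (L : Type) [Field L] [Algebra k L] (v : Fin M → L),
    (∀ g ∈ J', aeval v g = 0) → (∀ m ≤ s, OffF v I I' (along T ψ v m)) →
      ∀ m n, m0 ≤ m → m0 ≤ n → m ≡ n [MOD p] →
        ∀ i j, along T ψ v m i * along T ψ v n j = along T ψ v m j * along T ψ v n i :=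
    fun J' hJ' => ih J' hJ' (hJ0.trans hJ'.le)
  clear ih
  by_cases hJ : J.IsPrime
  · obtain ⟨v0, hv0⟩ := exists_generic J hJ
    have hz : ∀ {L : Type} [Field L] [Algebra k L] {v : Fin M → L}, (∀ g ∈ J, aeval v g = 0) →
        ∀ g : MvPolynomial (Fin M) k, aeval v0 g = 0 → aeval v g = 0 :=
      fun hv g hg => hv g ((hv0 g).1 hg)
    by_cases h1 : ∃ m, along T ψ v0 m = 0
    · obtain ⟨m, hm⟩ := h1
      refine ⟨m, 0, 1, one_pos, fun L _ _ v hv hoff => ?_⟩
      exfalso
      apply (hoff m le_rfl).ne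
      funext j
      rw [← aeval_univ]
      refine hz hv _ ?_
      rw [aeval_univ, hm]
      rfl
    by_cases h2 : ∃ m, ¬ IsPtP (ev v0 : MvPolynomial (Fin M) k →+* ℂ) I (along T ψ v0 m)
    · obtain ⟨m, hm⟩ := h2
      unfold IsPtP at hm
      push Not at hm
      obtain ⟨G, hG, hGh, hne⟩ := hm
      rw [eval₂_along] at hne
      obtain ⟨s, m0, p, hp, h3⟩ := ih' (J ⊔ Ideal.span {eval₂ (RingHom.id _) (univ T ψ m) G})
        (lt_sup fun h4 => hne ((hv0 _).2 h4))
      refine ⟨max m s, m0, p, hp, fun L _ _ v hv hoff => h3 L v (sup_zero hv ?_)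
        fun m' hm' => hoff m' (hm'.trans (le_max_right _ _))⟩
      rw [← eval₂_along]
      exact (hoff m (le_max_left _ _)).mem G hG hGh
    by_cases h3 : ∃ m, IsPtP (ev v0 : MvPolynomial (Fin M) k →+* ℂ) I' (along T ψ v0 m)
    · obtain ⟨m, hm⟩ := h3
      refine ⟨m, 0, 1, one_pos, fun L _ _ v hv hoff => ?_⟩
      exfalso
      apply (hoff m le_rfl).out
      intro G hG hGh
      rw [eval₂_along]
      refine hz hv _ ?_
      rw [← eval₂_along]
      exact hm G hG hGh
    push Not at h1 h2 h3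
    obtain ⟨p, m0, hp, hper⟩ := per_sub (h v0 fun g hg => (hv0 g).2 (hJ0 hg)) _ _
      (stable_orb (T := T) v0) (rel_orb (ψ := ψ) v0)
      (Eventually.of_forall h1) (Eventually.of_forall h2) (Eventually.of_forall h3)
    have h4 : ∀ q m, m0 ≤ m → ∀ i j, along T ψ v0 (m + p * q) i * along T ψ v0 m j =
        along T ψ v0 (m + p * q) j * along T ψ v0 m i := by
      intro q
      induction q with
      | zero =>
        intro m _ i j
        rw [mul_zero, add_zero, mul_comm]
      | succ q ihq =>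
        intro m hm i j
        have h5 := hper (m + p * q) (by omega)
        have h6 : m + p * (q + 1) = m + p * q + p := by ring
        rw [h6]
        exact cross_trans (h1 (m + p * q)) h5 (ihq m hm) i j
    have h5 : ∀ m n, m0 ≤ m → m ≤ n → m ≡ n [MOD p] → ∀ i j,
        along T ψ v0 n i * along T ψ v0 m j = along T ψ v0 n j * along T ψ v0 m i := by
      intro m n hm hmn hmod i j
      obtain ⟨q, hq⟩ := (Nat.modEq_iff_dvd' hmn).1 hmod
      have h6 : n = m + p * q := by omega
      rw [h6]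
      exact h4 q m hm i j
    refine ⟨0, m0, p, hp, fun L _ _ v hv _ m n hm hn hmod i j => ?_⟩
    have h6 : along T ψ v0 m i * along T ψ v0 n j = along T ψ v0 m j * along T ψ v0 n i := by
      rcases le_total m n with h7 | h7
      · have h8 := h5 m n hm h7 hmod i j
        linear_combination -h8
      · exact h5 n m hn h7 hmod.symm i j
    have h7 := hz hv (univ T ψ m i * univ T ψ n j - univ T ψ m j * univ T ψ n i) (by
      rw [map_sub, map_mul, map_mul, aeval_univ, aeval_univ, aeval_univ, aeval_univ, h6, sub_self])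
    rw [map_sub, map_mul, map_mul, aeval_univ, aeval_univ, aeval_univ, aeval_univ] at h7
    exact sub_eq_zero.1 h7
  · by_cases hT : J = ⊤
    · refine ⟨0, 0, 1, one_pos, fun L _ _ v hv => ?_⟩
      have h1 := hv 1 (by rw [hT]; trivial)
      rw [map_one] at h1
      exact absurd h1 one_ne_zero
    · have h1 : ∃ a b, a * b ∈ J ∧ a ∉ J ∧ b ∉ J := by
        by_contra hcon
        push Not at hcon
        refine hJ ⟨hT, fun {a b} hab => ?_⟩
        by_cases ha : a ∈ J
        · exact Or.inl ha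
        · exact Or.inr (hcon a b hab ha)
      obtain ⟨a, b, hab, ha, hb⟩ := h1
      obtain ⟨s1, m1, p1, hp1, h2⟩ := ih' _ (lt_sup ha)
      obtain ⟨s2, m2, p2, hp2, h3⟩ := ih' _ (lt_sup hb)
      refine ⟨max s1 s2, max m1 m2, p1 * p2, Nat.mul_pos hp1 hp2,
        fun L _ _ v hv hoff m n hm hn hmod => ?_⟩
      have h4 := hv _ hab
      rw [map_mul] at h4
      rcases mul_eq_zero.1 h4 with h5 | h5
      · exact h2 L v (sup_zero hv h5) (fun m' hm' => hoff m' (hm'.trans (le_max_left _ _))) m n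
          ((le_max_left _ _).trans hm) ((le_max_left _ _).trans hn) (hmod.of_mul_right _)
      · exact h3 L v (sup_zero hv h5) (fun m' hm' => hoff m' (hm'.trans (le_max_right _ _))) m n
          ((le_max_right _ _).trans hm) ((le_max_right _ _).trans hn) (hmod.of_mul_left _)

/-- Families over a finite set of parameters. The parameters `v` satisfy the equations in `J0`. -/
theorem unif_fam_all {ι : Type} [Finite ι] [Countable k] [Algebra k ℂ]
    (C : Set (MvPolynomial ι k))
    {FF : Set (MvPolynomial (Fin (N + 1)) (MvPolynomial ι k))}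
    (h : ∀ (v : ι → ℂ), (∀ g ∈ C, aeval v g = 0) →
      ∀ (F : Type) [Field F] [Algebra ℂ F] (w : ℕ) (y : Fin (N + 1) → F), y ≠ 0 →
      Pool.Agent.W602.GT.coords ℂ y = ⊤ → Algebra.trdeg ℂ F = w → 0 < w →
      (∀ G ∈ FF, aeval y (MvPolynomial.map ((aeval v : MvPolynomial ι k →ₐ[k] ℂ) : _ →+* ℂ) G) = 0) →
      Pool.Agent.W602.GT.GeneralType ℂ F w)
    (hFF : ∀ G ∈ FF, ∃ d, G.IsHomogeneous d)
    (T : ι → MvPolynomial ι k) (ψ : Fin (N + 1) → MvPolynomial ι k) :
    ∃ s m0 p : ℕ, 0 < p ∧ ∀ (L : Type) [Field L] [Algebra k L] (v : ι → L),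
      (∀ g ∈ C, aeval v g = 0) → (∀ m ≤ s, along T ψ v m ≠ 0 ∧
        ∀ G ∈ FF, eval (along T ψ v m)
          (MvPolynomial.map ((aeval v : MvPolynomial ι k →ₐ[k] L) : _ →+* L) G) = 0) →
        ∀ m n, m0 ≤ m → m0 ≤ n → m ≡ n [MOD p] →
          ∀ i j, along T ψ v m i * along T ψ v n j = along T ψ v m j * along T ψ v n i := by
  classical
  obtain ⟨M, ⟨e⟩⟩ := Finite.exists_equiv_fin ι
  obtain ⟨θ, hθ⟩ : ∃ θ : MvPolynomial ι k →+* MvPolynomial (Fin M) k,
      θ = ((rename e : MvPolynomial ι k →ₐ[k] _) : _ →+* _) := ⟨_, rfl⟩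
  have hθv : ∀ {A : Type} [CommRing A] [Algebra k A] (v : Fin M → A) (g : MvPolynomial ι k),
      aeval v (θ g) = aeval (fun i => v (e i)) g := by
    intro A _ _ v g
    rw [hθ]
    exact aeval_rename e v g
  obtain ⟨J0, hJ0⟩ : ∃ J0 : Ideal (MvPolynomial (Fin M) k), J0 = Ideal.span (θ '' C) := ⟨_, rfl⟩
  obtain ⟨I, hI⟩ : ∃ I : Ideal (MvPolynomial (Fin (N + 1)) (MvPolynomial (Fin M) k)),
      I = Ideal.span (MvPolynomial.map θ '' FF) := ⟨_, rfl⟩
  have hJ : ∀ {A : Type} [CommRing A] [Algebra k A] (v : Fin M → A),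
      (∀ g ∈ J0, aeval v g = 0) ↔ ∀ g ∈ C, aeval (fun i => v (e i)) g = 0 := by
    intro A _ _ v
    constructor
    · intro h1 g hg
      rw [← hθv]
      exact h1 _ (by rw [hJ0]; exact Ideal.subset_span ⟨g, hg, rfl⟩)
    · intro h1 g hg
      have h2 : J0 ≤ RingHom.ker (ev v : MvPolynomial (Fin M) k →+* A) := by
        rw [hJ0, Ideal.span_le]
        rintro _ ⟨g, hg, rfl⟩
        change aeval v (θ g) = 0
        rw [hθv]
        exact h1 g hg
      exact h2 hg
  have hev : ∀ {A : Type} [CommRing A] [Algebra k A] (v : Fin M → A) (x : Fin (N + 1) → A)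
      (G : MvPolynomial (Fin (N + 1)) (MvPolynomial ι k)),
      eval₂ (ev v : MvPolynomial (Fin M) k →+* A) x (MvPolynomial.map θ G) =
        eval x (MvPolynomial.map ((aeval (fun i => v (e i)) : MvPolynomial ι k →ₐ[k] A) :
          _ →+* A) G) := by
    intro A _ _ v x G
    rw [eval₂_map, eval_map]
    congr 1
    exact RingHom.ext fun g => hθv v g
  have hpt : ∀ {A : Type} [Field A] [Algebra k A] (v : Fin M → A) (x : Fin (N + 1) → A),
      IsPtP (ev v : MvPolynomial (Fin M) k →+* A) I x ↔ ∀ G ∈ FF, eval x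
        (MvPolynomial.map ((aeval (fun i => v (e i)) : MvPolynomial ι k →ₐ[k] A) :
          _ →+* A) G) = 0 := by
    intro A _ _ v x
    constructor
    · intro h1 G hG
      obtain ⟨d, hd⟩ := hFF G hG
      rw [← hev]
      exact h1 _ (by rw [hI]; exact Ideal.subset_span ⟨G, hG, rfl⟩) ⟨d, hd.map _⟩
    · intro h1 G hG _
      have h2 : I ≤ RingHom.ker (eval₂Hom (ev v : MvPolynomial (Fin M) k →+* A) x) := by
        rw [hI, Ideal.span_le]
        rintro _ ⟨G, hG, rfl⟩
        change eval₂ (ev v : MvPolynomial (Fin M) k →+* A) x (MvPolynomial.map θ G) = 0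
        rw [hev]
        exact h1 G hG
      exact h2 hG
  have hout : ∀ {A : Type} [Field A] [Algebra k A] (v : Fin M → A) (x : Fin (N + 1) → A),
      ¬ IsPtP (ev v : MvPolynomial (Fin M) k →+* A)
        (⊤ : Ideal (MvPolynomial (Fin (N + 1)) (MvPolynomial (Fin M) k))) x := by
    intro A _ _ v x h1
    have h2 := h1 1 trivial ⟨0, isHomogeneous_one _ _⟩
    rw [eval₂_one] at h2
    exact one_ne_zero h2
  have h0 : ∀ v : Fin M → ℂ, (∀ g ∈ J0, aeval v g = 0) →
      SubGT (ev v : MvPolynomial (Fin M) k →+* ℂ) I ⊤ := by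
    intro v hv F _ _ w y hy hc hw hw0 hX _
    refine h _ ((hJ v).1 hv) F w y hy hc hw hw0 fun G hG => ?_
    obtain ⟨d, hd⟩ := hFF G hG
    have h1 := hX _ (by rw [hI]; exact Ideal.subset_span ⟨G, hG, rfl⟩ :
      MvPolynomial.map θ G ∈ I) ⟨d, hd.map _⟩
    rw [← h1, aeval_def, eval₂_map, eval₂_map]
    congr 1
    refine RingHom.ext fun g => ?_
    change _ = algebraMap ℂ F (aeval v (θ g))
    rw [hθv]
    rfl
  obtain ⟨s, m0, p, hp, h1⟩ := unif_fam h0 (fun i' => rename e (T (e.symm i')))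
    (fun j => rename e (ψ j)) J0 le_rfl
  refine ⟨s, m0, p, hp, fun L _ _ v hv hoff => ?_⟩
  have h2 : ∀ m, along (fun i' => rename e (T (e.symm i'))) (fun j => rename e (ψ j))
      (fun i' => v (e.symm i')) m = along T ψ v m := by
    intro m
    funext j
    change aeval (orb (fun i' => rename e (T (e.symm i'))) (fun i' => v (e.symm i')) m)
      (rename e (ψ j)) = aeval (orb T v m) (ψ j)
    rw [orb_equiv, aeval_rename]
    congr 2
    funext i
    simp
  have h4 : (fun i => v (e.symm (e i))) = v := by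
    funext i
    rw [Equiv.symm_apply_apply]
  have h3 := h1 L (fun i' => v (e.symm i')) ((hJ _).2 (by rw [h4]; exact hv)) (fun m hm => by
    rw [h2]
    refine ⟨(hoff m hm).1, (hpt _ _).2 ?_, hout _ _⟩
    rw [h4]
    exact (hoff m hm).2)
  intro m n hm hn hmod i j
  have h5 := h3 m n hm hn hmod i j
  rwa [h2, h2] at h5

end Pool.Agent.Q13.UF
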