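import Pool.Agent.Q13.UF.Det

/-!
Uniform periodicity on all nonsingular plane curves of degree `D ≥ 4`.
-/

set_option autoImplicit false

namespace Pool.Agent.Q13.UF

open MvPolynomial Pool.Agent.Q13.UN

/-- the coefficients which multiply the `n`-th powers of the variables into the ideal of the
`G k` -/
def EI {R : Type} [CommRing R] (G : Fin 3 → MvPolynomial (Fin 3) R) (n : ℕ) : Ideal R where
  carrier := {g | ∀ i, ∃ B : Fin 3 → MvPolynomial (Fin 3) R,
    (∀ k j, (B k).degreeOf j ≤ n) ∧ C g * X i ^ n = ∑ k, B k * G k}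
  zero_mem' := fun i => ⟨fun _ => 0, fun k j => by rw [degreeOf_zero]; exact Nat.zero_le _, by simp⟩
  add_mem' := by
    intro a b ha hb i
    obtain ⟨B, hB, h1⟩ := ha i
    obtain ⟨B', hB', h2⟩ := hb i
    refine ⟨fun k => B k + B' k, fun k j =>
      (degreeOf_add_le _ _ _).trans (max_le (hB k j) (hB' k j)), ?_⟩
    rw [map_add, add_mul, h1, h2, ← Finset.sum_add_distrib]
    exact Finset.sum_congr rfl fun k _ => by rw [add_mul]
  smul_mem' := by
    intro c a ha i
    obtain ⟨B, hB, h1⟩ := ha i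
    refine ⟨fun k => C c * B k, fun k j => (degreeOf_C_mul_le _ _ _).trans (hB k j), ?_⟩
    rw [smul_eq_mul, map_mul, mul_assoc, h1, Finset.mul_sum]
    exact Finset.sum_congr rfl fun k _ => by rw [mul_assoc]

theorem ei_succ {R : Type} [CommRing R] (G : Fin 3 → MvPolynomial (Fin 3) R) (n : ℕ) :
    EI G n ≤ EI G (n + 1) := by
  classical
  intro g hg i
  obtain ⟨B, hB, h1⟩ := hg i
  refine ⟨fun k => B k * X i, fun k j => ?_, ?_⟩
  · refine (degreeOf_mul_le _ _ _).trans ?_
    have h2 : (X i : MvPolynomial (Fin 3) R).degreeOf j ≤ 1 := by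
      rw [degreeOf_le_iff]
      intro x hx
      have h3 := support_monomial_subset hx
      rw [Finset.mem_singleton] at h3
      rw [h3, Finsupp.single_apply]
      split_ifs <;> omega
    have h3 := hB k j
    omega
  · rw [pow_succ, ← mul_assoc, h1, Finset.sum_mul]
    exact Finset.sum_congr rfl fun k _ => by ring

theorem ei_mono {R : Type} [CommRing R] (G : Fin 3 → MvPolynomial (Fin 3) R) :
    Monotone (EI G) := monotone_nat_of_le_succ (ei_succ G)

/-- Some certificate. -/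
def Nonsing {L : Type} [Field L] (F : MvPolynomial (Fin 3) L) : Prop :=
  ∃ N : ℕ, ∀ i, ∃ B : Fin 3 → MvPolynomial (Fin 3) L, X i ^ N = ∑ k, B k * pderiv k F

/-- **A uniform exponent.** -/
theorem exists_exponent (D : ℕ) : ∃ N : ℕ, ∀ (L : Type) [Field L] [Algebra ℚ L]
    (F : MvPolynomial (Fin 3) L), F.IsHomogeneous D → Nonsing F → NS N F := by
  classical
  obtain ⟨FF, hFF⟩ : ∃ FF : MvPolynomial (Fin 3) (MvPolynomial (Fin 3 → Fin (D + 1)) ℚ),
      FF = pol (DegD D) fun μ => X μ := ⟨_, rfl⟩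
  obtain ⟨G, hG⟩ : ∃ G : Fin 3 → MvPolynomial (Fin 3) (MvPolynomial (Fin 3 → Fin (D + 1)) ℚ),
      G = fun k => pderiv k FF := ⟨_, rfl⟩
  have hGh : ∀ k, (G k).IsHomogeneous (D - 1) := fun k => by
    rw [hG, hFF]
    exact (pol_hom _).pderiv
  obtain ⟨N, hN⟩ := monotone_stabilizes_iff_noetherian.2
    (inferInstance : IsNoetherianRing (MvPolynomial (Fin 3 → Fin (D + 1)) ℚ)) ⟨EI G, ei_mono G⟩
  refine ⟨N, fun L _ _ F hF hns => ?_⟩
  obtain ⟨f, hf⟩ : ∃ f : MvPolynomial (Fin 3 → Fin (D + 1)) ℚ →+* L,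
      f = ((aeval (fun μ => F.coeff (expo μ)) : MvPolynomial (Fin 3 → Fin (D + 1)) ℚ →ₐ[ℚ] L) :
        _ →+* _) := ⟨_, rfl⟩
  have hFp : map f FF = F := by
    rw [hFF, map_pol]
    have h1 : (fun μ : Fin 3 → Fin (D + 1) => f (X μ)) = fun μ => F.coeff (expo μ) := by
      funext μ
      rw [hf]
      exact aeval_X _ _
    rw [h1]
    refine pol_coeff (fun j => ?_) _ fun μ hμ => ?_
    · rw [degreeOf_le_iff]
      intro e he
      have h2 : e.degree = D := deg_of (hF (mem_support_iff.1 he))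
      have h3 := Finsupp.le_degree j e
      omega
    · exact deg_of (hF (mem_support_iff.1 hμ))
  have hGp : ∀ k, map f (G k) = pderiv k F := fun k => by
    rw [hG, ← pderiv_map, hFp]
  obtain ⟨N', hN'⟩ := hns
  obtain ⟨n, g, hg, h1⟩ := det_trick f hGh (N := N') fun i => by
    obtain ⟨B, hB⟩ := hN' i
    refine ⟨B, hB.trans (Finset.sum_congr rfl fun k _ => by rw [hGp])⟩
  have h2 : g ∈ EI G n := h1
  have h3 : g ∈ EI G N := by
    rcases le_total N n with h4 | h4
    · have h5 : EI G N = EI G n := hN n h4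
      rw [h5]
      exact h2
    · exact ei_mono G h4 h2
  intro i
  obtain ⟨B, hB, h4⟩ := h3 i
  refine ⟨fun k => C (f g)⁻¹ * map f (B k), fun k j => ?_, ?_⟩
  · refine (degreeOf_C_mul_le _ _ _).trans ?_
    rw [degreeOf_le_iff]
    intro e he
    exact (monomial_le_degreeOf j (support_map_subset f _ he)).trans (hB k j)
  · have h5 := congrArg (map f) h4
    rw [map_mul, map_pow, map_X, map_C, map_sum] at h5
    have h6 : (X i : MvPolynomial (Fin 3) L) ^ N = C (f g)⁻¹ * (C (f g) * X i ^ N) := by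
      rw [← mul_assoc, ← C_mul, inv_mul_cancel₀ hg, C_1, one_mul]
    rw [h6, h5, Finset.mul_sum]
    refine Finset.sum_congr rfl fun k _ => ?_
    rw [map_mul, hGp, mul_assoc]

/-- **Uniform periodicity on all nonsingular plane curves of degree `D ≥ 4`.** -/
theorem plane_all {D : ℕ} (hD : 4 ≤ D) (M d : ℕ) :
    ∃ s m0 p : ℕ, 0 < p ∧ ∀ (L : Type) [Field L] [Algebra ℚ L] (F : MvPolynomial (Fin 3) L)
      (T : Fin M → MvPolynomial (Fin M) L) (ψ : Fin 3 → MvPolynomial (Fin M) L) (v : Fin M → L),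
      F.IsHomogeneous D → Nonsing F →
      (∀ i j, (T i).degreeOf j ≤ d) → (∀ i j, (ψ i).degreeOf j ≤ d) →
      (∀ m ≤ s, along (N := 2) T ψ v m ≠ 0 ∧ eval (along (N := 2) T ψ v m) F = 0) →
      ∀ m n, m0 ≤ m → m0 ≤ n → m ≡ n [MOD p] → ∀ i j,
        along (N := 2) T ψ v m i * along (N := 2) T ψ v n j =
          along (N := 2) T ψ v m j * along (N := 2) T ψ v n i := by
  obtain ⟨N, hN⟩ := exists_exponent D
  obtain ⟨s, m0, p, hp, h1⟩ := plane_unif hD N M d
  exact ⟨s, m0, p, hp, fun L _ _ F T ψ v hF hns => h1 L F T ψ v hF (hN L F hF hns)⟩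

/-- no common zero of the partial derivatives -/
theorem nonsing_of {L : Type} [Field L] [IsAlgClosed L] {F : MvPolynomial (Fin 3) L}
    (h : ∀ z : Fin 3 → L, (∀ k, eval z (pderiv k F) = 0) → z = 0) : Nonsing F := by
  classical
  have h1 : ∀ i, ∃ n : ℕ, (X i : MvPolynomial (Fin 3) L) ^ n ∈
      Ideal.span (Set.range fun k => pderiv k F) := by
    intro i
    have h2 : (X i : MvPolynomial (Fin 3) L) ∈
        (Ideal.span (Set.range fun k => pderiv k F)).radical := by
      rw [← vanishingIdeal_zeroLocus_eq_radical (K := L), mem_vanishingIdeal_iff]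
      intro z hz
      have h3 := h z fun k => by
        have h4 := (mem_zeroLocus_iff.1 hz) (pderiv k F) (Ideal.subset_span ⟨k, rfl⟩)
        rwa [MvPolynomial.aeval_eq_eval] at h4
      rw [aeval_X, h3]
      rfl
    exact h2
  choose n hn using h1
  refine ⟨∑ i, n i, fun i => ?_⟩
  have h3 : (X i : MvPolynomial (Fin 3) L) ^ (∑ i, n i) ∈
      Ideal.span (Set.range fun k => pderiv k F) := by
    have h4 := Finset.single_le_sum (f := n) (fun _ _ => Nat.zero_le _) (Finset.mem_univ i)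
    rw [← Nat.sub_add_cancel h4, pow_add]
    exact Ideal.mul_mem_left _ _ (hn i)
  obtain ⟨B, hB⟩ := (Ideal.mem_span_range_iff_exists_fun).1 h3
  exact ⟨B, hB.symm⟩

end Pool.Agent.Q13.UF
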